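import Mathlib

/-!
# Natural numbers and polynomials over a finite field
-/

set_option autoImplicit false

namespace Q271.FF

open Polynomial

/-! ### digits of natural numbers -/

lemma sum_lt (q : ℕ) (c : ℕ → ℕ) (hc : ∀ j, c j < q) (m : ℕ) :
    ∑ j ∈ Finset.range m, c j * q ^ j < q ^ m := by
  induction m with
  | zero => simp
  | succ m ih =>
    rw [Finset.sum_range_succ, pow_succ]
    have h1 : c m * q ^ m + q ^ m ≤ q ^ m * q := by
      have := Nat.mul_le_mul_right (q ^ m) (hc m)
      have e : (c m).succ * q ^ m = c m * q ^ m + q ^ m := by rw [Nat.succ_mul]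
      rw [e] at this
      linarith [mul_comm q (q ^ m)]
    omega

lemma sum_digit (q : ℕ) (c : ℕ → ℕ) (hc : ∀ j, c j < q) (m i : ℕ) (hi : i < m) :
    (∑ j ∈ Finset.range m, c j * q ^ j) / q ^ i % q = c i := by
  have hq : 0 < q := lt_of_le_of_lt (Nat.zero_le _) (hc 0)
  obtain ⟨k, rfl⟩ := Nat.exists_eq_add_of_le (Nat.succ_le_of_lt hi)
  have e : ∑ j ∈ Finset.range (i.succ + k), c j * q ^ j =
      ∑ j ∈ Finset.range i, c j * q ^ j +
      q ^ i * (c i + q * ∑ j ∈ Finset.range k, c (i + 1 + j) * q ^ j) := by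
    rw [Finset.sum_range_add, Finset.sum_range_succ, Nat.succ_eq_add_one, mul_add,
      Finset.mul_sum, Finset.mul_sum, add_assoc]
    congr 1
    rw [mul_comm (q ^ i) (c i)]
    congr 1
    apply Finset.sum_congr rfl
    intro j _
    ring
  rw [e, Nat.add_mul_div_left _ _ (pow_pos hq i), Nat.div_eq_of_lt (sum_lt q c hc i), zero_add,
    Nat.add_mul_mod_self_left, Nat.mod_eq_of_lt (hc i)]

lemma sum_digits_self (q : ℕ) (hq : 0 < q) (m : ℕ) : ∀ n : ℕ, n < q ^ m →
    ∑ j ∈ Finset.range m, n / q ^ j % q * q ^ j = n := by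
  induction m with
  | zero =>
    intro n hn
    simp at hn
    simp [hn]
  | succ m ih =>
    intro n hn
    rw [Finset.sum_range_succ']
    have h1 : n / q < q ^ m := by
      rw [Nat.div_lt_iff_lt_mul hq, ← pow_succ]
      exact hn
    have h2 := ih (n / q) h1
    have e : ∑ k ∈ Finset.range m, n / q ^ (k + 1) % q * q ^ (k + 1) =
        q * ∑ j ∈ Finset.range m, n / q / q ^ j % q * q ^ j := by
      rw [Finset.mul_sum]
      apply Finset.sum_congr rfl
      intro j _
      rw [pow_succ' q j, ← Nat.div_div_eq_div_mul]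
      ring
    rw [e, h2]
    simp only [pow_zero, Nat.div_one, mul_one]
    exact Nat.div_add_mod n q

variable {F : Type} [Field F] [Fintype F]

/-- the `i`-th digit of `n`, an element of `F` -/
noncomputable def dig (E : F ≃ Fin (Fintype.card F)) (n i : ℕ) : F :=
  E.symm ⟨n / Fintype.card F ^ i % Fintype.card F, Nat.mod_lt _ Fintype.card_pos⟩

/-- the polynomial `n(t)` -/
noncomputable def toPoly (E : F ≃ Fin (Fintype.card F)) (n : ℕ) : F[X] :=
  ∑ i ∈ Finset.range (n + 1), monomial i (dig E n i)

/-- `ev_q` for polynomials -/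
noncomputable def ev (E : F ≃ Fin (Fintype.card F)) (f : F[X]) : ℕ :=
  ∑ j ∈ Finset.range (f.natDegree + 1), (E (f.coeff j) : ℕ) * Fintype.card F ^ j

section
variable (E : F ≃ Fin (Fintype.card F)) (hE : (E 0 : ℕ) = 0)

include hE in
lemma symm_zero (h : 0 < Fintype.card F) : E.symm ⟨0, h⟩ = 0 := by
  rw [Equiv.symm_apply_eq]
  exact Fin.ext hE.symm

lemma card_two : 2 ≤ Fintype.card F := Fintype.one_lt_card

include hE in
lemma dig_eq_zero (n i : ℕ) (h : n < Fintype.card F ^ i) : dig E n i = 0 := by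
  unfold dig
  have e : n / Fintype.card F ^ i % Fintype.card F = 0 := by
    rw [Nat.div_eq_of_lt h, Nat.zero_mod]
  simp only [e]
  exact symm_zero E hE _

lemma lt_card_pow (n : ℕ) : n < Fintype.card F ^ n :=
  lt_of_lt_of_le Nat.lt_two_pow_self (Nat.pow_le_pow_left card_two n)

include hE in
lemma coeff_toPoly (n i : ℕ) : (toPoly E n).coeff i = dig E n i := by
  unfold toPoly
  rw [finset_sum_coeff]
  simp only [coeff_monomial]
  rw [Finset.sum_ite_eq']
  by_cases h : i ∈ Finset.range (n + 1)
  · rw [if_pos h]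
  · rw [if_neg h, dig_eq_zero E hE]
    rw [Finset.mem_range, not_lt] at h
    calc n < Fintype.card F ^ n := lt_card_pow n
      _ ≤ Fintype.card F ^ i := Nat.pow_le_pow_right (by have := card_two (F := F); omega) (by omega)

include hE in
lemma ev_eq_sum (f : F[X]) (m : ℕ) (h : f.degree < m) :
    ev E f = ∑ j ∈ Finset.range m, (E (f.coeff j) : ℕ) * Fintype.card F ^ j := by
  unfold ev
  rcases eq_or_ne f 0 with rfl | hf
  · simp [hE]
  · have h1 : f.natDegree < m := by
      rw [degree_eq_natDegree hf] at h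
      exact_mod_cast h
    apply Finset.sum_subset
    · intro x hx
      rw [Finset.mem_range] at hx ⊢
      omega
    · intro x _ hx
      rw [Finset.mem_range, not_lt] at hx
      rw [coeff_eq_zero_of_natDegree_lt (by omega), hE, zero_mul]

include hE in
lemma ev_lt (f : F[X]) (m : ℕ) (h : f.degree < m) : ev E f < Fintype.card F ^ m := by
  rw [ev_eq_sum E hE f m h]
  exact sum_lt _ _ (fun j => (E (f.coeff j)).2) m

include hE in
lemma toPoly_degree_lt (n m : ℕ) (h : n < Fintype.card F ^ m) : (toPoly E n).degree < m := by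
  rw [degree_lt_iff_coeff_zero]
  intro i hi
  rw [coeff_toPoly E hE, dig_eq_zero E hE]
  exact lt_of_lt_of_le h (Nat.pow_le_pow_right (by have := card_two (F := F); omega) hi)

lemma degree_lt_succ (f : F[X]) : f.degree < ((f.natDegree + 1 : ℕ) : WithBot ℕ) :=
  lt_of_le_of_lt degree_le_natDegree (by exact_mod_cast Nat.lt_succ_self _)

include hE in
lemma toPoly_ev (f : F[X]) : toPoly E (ev E f) = f := by
  ext i
  rw [coeff_toPoly E hE]
  by_cases hi : i < f.natDegree + 1
  · unfold dig
    rw [Equiv.symm_apply_eq]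
    apply Fin.ext
    unfold ev
    exact sum_digit _ (fun j => (E (f.coeff j) : ℕ)) (fun j => (E (f.coeff j)).2) _ i hi
  · push Not at hi
    rw [coeff_eq_zero_of_natDegree_lt (by omega), dig_eq_zero E hE]
    exact lt_of_lt_of_le (ev_lt E hE f (f.natDegree + 1) (degree_lt_succ f))
      (Nat.pow_le_pow_right (by have := card_two (F := F); omega) hi)

include hE in
lemma ev_toPoly (n : ℕ) : ev E (toPoly E n) = n := by
  have h1 := lt_card_pow (F := F) n
  rw [ev_eq_sum E hE _ n (toPoly_degree_lt E hE n n h1)]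
  conv_rhs => rw [← sum_digits_self (Fintype.card F) Fintype.card_pos n n h1]
  apply Finset.sum_congr rfl
  intro j _
  rw [coeff_toPoly E hE]
  unfold dig
  rw [Equiv.apply_symm_apply]

include hE in
lemma toPoly_injective : Function.Injective (toPoly E) := by
  intro a b h
  rw [← ev_toPoly E hE a, ← ev_toPoly E hE b, h]

include hE in
lemma toPoly_add (u n m : ℕ) (h : n < Fintype.card F ^ m) :
    toPoly E (u * Fintype.card F ^ m + n) = X ^ m * toPoly E u + toPoly E n := by
  have hq : 0 < Fintype.card F := Fintype.card_pos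
  ext i
  rw [coeff_add, coeff_X_pow_mul', coeff_toPoly E hE, coeff_toPoly E hE, coeff_toPoly E hE]
  by_cases hi : m ≤ i
  · rw [if_pos hi, dig_eq_zero E hE n i (lt_of_lt_of_le h (Nat.pow_le_pow_right hq hi)),
      add_zero]
    unfold dig
    congr 2
    obtain ⟨k, rfl⟩ := Nat.exists_eq_add_of_le hi
    rw [pow_add, ← Nat.div_div_eq_div_mul, add_comm, Nat.add_mul_div_right _ _ (pow_pos hq m),
      Nat.div_eq_of_lt h, zero_add, Nat.add_sub_cancel_left]
  · rw [if_neg hi, zero_add]
    unfold dig
    congr 2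
    push Not at hi
    obtain ⟨k, rfl⟩ := Nat.exists_eq_add_of_le (Nat.succ_le_of_lt hi)
    have e : u * Fintype.card F ^ (i.succ + k) + n =
        n + Fintype.card F ^ i * (Fintype.card F * (u * Fintype.card F ^ k)) := by
      rw [Nat.succ_eq_add_one]
      ring
    rw [e, Nat.add_mul_div_left _ _ (pow_pos hq i), Nat.add_mul_mod_self_left]

end

end Q271.FF
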