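import Mathlib
import Pool.Agent.Q271.FF.Digits

/-!
# Equidistribution of one block
-/

set_option autoImplicit false

namespace Q271.FF

open Polynomial

variable {F : Type} [Field F]

/-- polynomials in `t` as Laurent series in `1 / t`; the coefficient of `t ^ (-i)` of a series `Θ`
is `Θ.coeff i` -/
noncomputable def emb : F[X] →+* LaurentSeries F :=
  eval₂RingHom HahnSeries.C (HahnSeries.single (-1 : ℤ) (1 : F))

lemma coeff_emb_monomial (j : ℕ) (c : F) (Θ : LaurentSeries F) (i : ℤ) :
    (emb (monomial j c) * Θ).coeff i = c * Θ.coeff (i + j) := by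
  have e : (emb (monomial j c) : LaurentSeries F) = HahnSeries.single (-(j:ℤ)) c := by
    unfold emb
    rw [coe_eval₂RingHom, eval₂_monomial, HahnSeries.single_pow, one_pow]
    have h1 : (j • (-1 : ℤ)) = -(j:ℤ) := by simp
    rw [h1, HahnSeries.C_apply, HahnSeries.single_mul_single, zero_add, mul_one]
  rw [e, HahnSeries.coeff_single_mul, sub_neg_eq_add]

/-- the polynomial with given coefficients -/
noncomputable def poly {M : ℕ} (x : Fin M → F) : F[X] := ∑ j : Fin M, monomial (j : ℕ) (x j)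

lemma coeff_emb_poly {M : ℕ} (x : Fin M → F) (Θ : LaurentSeries F) (i : ℤ) :
    (emb (poly x) * Θ).coeff i = ∑ j : Fin M, x j * Θ.coeff (i + (j : ℕ)) := by
  unfold poly
  rw [map_sum, Finset.sum_mul, HahnSeries.coeff_sum]
  exact Finset.sum_congr rfl fun j _ => coeff_emb_monomial _ _ _ _

lemma coeff_poly {M : ℕ} (x : Fin M → F) (j : Fin M) : (poly x).coeff j = x j := by
  unfold poly
  rw [finsetSum_coeff, Finset.sum_eq_single j]
  · rw [coeff_monomial, if_pos rfl]
  · intro i _ hi
    rw [coeff_monomial, if_neg]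
    exact fun h => hi (Fin.ext h)
  · intro h
    exact absurd (Finset.mem_univ _) h

lemma poly_degree_lt {M : ℕ} (x : Fin M → F) : (poly x).degree < M := by
  unfold poly
  rw [degree_lt_iff_coeff_zero]
  intro i hi
  rw [finsetSum_coeff]
  apply Finset.sum_eq_zero
  intro j _
  rw [coeff_monomial, if_neg]
  have := j.2
  omega

lemma poly_of_degree_lt {M : ℕ} (f : F[X]) (h : f.degree < M) :
    poly (fun j : Fin M => f.coeff j) = f := by
  ext i
  by_cases hi : i < M
  · exact coeff_poly (fun j : Fin M => f.coeff j) ⟨i, hi⟩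
  · push Not at hi
    rw [degree_lt_iff_coeff_zero] at h
    rw [h i hi]
    exact (degree_lt_iff_coeff_zero _ _).1 (poly_degree_lt _) i hi

lemma poly_injective {M : ℕ} : Function.Injective (poly (F := F) (M := M)) := by
  intro x y h
  ext j
  rw [← coeff_poly x j, ← coeff_poly y j, h]

/-- the Hankel matrix -/
def hank (Θ : LaurentSeries F) (e M : ℕ) : Matrix (Fin e) (Fin M) F :=
  fun j l => Θ.coeff ((e : ℤ) - (j : ℕ) + (l : ℕ))

lemma hank_surj (Θ : LaurentSeries F) (e M : ℕ)
    (hB : ∀ N : F[X], N ≠ 0 → N.natDegree < e → ∃ i : ℕ, 1 ≤ i ∧ i ≤ M ∧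
      (emb N * Θ).coeff (i : ℤ) ≠ 0) :
    Function.Surjective (hank Θ e M).mulVec := by
  classical
  by_contra hcon
  have hlt : LinearMap.range (hank Θ e M).mulVecLin < ⊤ := by
    rw [lt_top_iff_ne_top]
    intro h
    apply hcon
    rw [LinearMap.range_eq_top] at h
    exact h
  obtain ⟨f, hf, hker⟩ := Submodule.exists_le_ker_of_lt_top _ hlt
  set z : Fin e → F := fun j => f (Pi.single j 1) with hz
  have hfz : ∀ w : Fin e → F, f w = ∑ j, w j * z j := by
    intro w
    have : w = ∑ j, w j • (Pi.single j 1 : Fin e → F) := by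
      ext i
      simp [Finset.sum_apply, Pi.single_apply]
    conv_lhs => rw [this]
    rw [map_sum]
    exact Finset.sum_congr rfl fun j _ => by rw [map_smul, smul_eq_mul]
  set N : F[X] := ∑ j : Fin e, monomial (e - 1 - (j : ℕ)) (z j) with hN
  have hNcoeff : ∀ i : ℤ, (emb N * Θ).coeff i =
      ∑ j : Fin e, z j * Θ.coeff (i + ((e - 1 - (j : ℕ) : ℕ) : ℤ)) := by
    intro i
    rw [hN, map_sum, Finset.sum_mul, HahnSeries.coeff_sum]
    exact Finset.sum_congr rfl fun j _ => coeff_emb_monomial _ _ _ _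
  have hzero : ∀ i : ℕ, 1 ≤ i → i ≤ M → (emb N * Θ).coeff (i : ℤ) = 0 := by
    intro i hi1 hiM
    rw [hNcoeff]
    have hmem : (hank Θ e M).mulVecLin (Pi.single ⟨i - 1, by omega⟩ 1) ∈ LinearMap.ker f :=
      hker ⟨_, rfl⟩
    rw [LinearMap.mem_ker, hfz] at hmem
    rw [← hmem]
    apply Finset.sum_congr rfl
    intro j _
    rw [mul_comm]
    congr 1
    rw [Matrix.mulVecLin_apply, Matrix.mulVec_single_one, Matrix.col_apply]
    unfold hank
    congr 1
    have := j.2
    push_cast [Nat.cast_sub]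
    omega
  have hN0 : N = 0 := by
    by_contra hne
    have hdeg : N.natDegree < e := by
      have h0 : 0 < e := by
        by_contra h0
        have : e = 0 := by omega
        subst this
        exact hne (by rw [hN]; simp)
      rw [natDegree_lt_iff_degree_lt hne, degree_lt_iff_coeff_zero]
      intro i hi
      rw [hN, finsetSum_coeff]
      apply Finset.sum_eq_zero
      intro j _
      rw [coeff_monomial, if_neg]
      omega
    obtain ⟨i, hi1, hiM, hi⟩ := hB N hne hdeg
    exact hi (hzero i hi1 hiM)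
  apply hf
  ext w
  have hz0 : ∀ j : Fin e, z j = 0 := by
    intro j
    have h1 : N.coeff (e - 1 - (j:ℕ)) = z j := by
      rw [hN, finsetSum_coeff, Finset.sum_eq_single j]
      · rw [coeff_monomial, if_pos rfl]
      · intro i _ hi
        rw [coeff_monomial, if_neg]
        intro h
        apply hi
        apply Fin.ext
        have := i.2
        have := j.2
        omega
      · intro h
        exact absurd (Finset.mem_univ _) h
    rw [← h1, hN0, coeff_zero]
  simp only [LinearMap.coe_comp, Function.comp_apply, LinearMap.zero_comp, LinearMap.zero_apply]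
  exact hz0 w

variable [Fintype F]

open Classical in
lemma hank_fiber (Θ : LaurentSeries F) (e M : ℕ) (heM : e ≤ M)
    (hB : ∀ N : F[X], N ≠ 0 → N.natDegree < e → ∃ i : ℕ, 1 ≤ i ∧ i ≤ M ∧
      (emb N * Θ).coeff (i : ℤ) ≠ 0) (w : Fin e → F) :
    (Finset.univ.filter (fun x : Fin M → F => (hank Θ e M).mulVec x = w)).card =
      Fintype.card F ^ (M - e) := by
  have hsurj := hank_surj Θ e M hB
  set f := (hank Θ e M).mulVecLin.toAddMonoidHom with hf
  have hfib : ∀ w' : Fin e → F,
      (Finset.univ.filter (fun x : Fin M → F => (hank Θ e M).mulVec x = w')).card =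
      (Finset.univ.filter (fun x : Fin M → F => (hank Θ e M).mulVec x = w)).card := by
    intro w'
    exact AddMonoidHom.card_fiber_eq_of_mem_range f (hsurj w') (hsurj w)
  have htot : Fintype.card F ^ M = Fintype.card F ^ e *
      (Finset.univ.filter (fun x : Fin M → F => (hank Θ e M).mulVec x = w)).card := by
    have h1 : (Finset.univ : Finset (Fin M → F)).card = ∑ w' : Fin e → F,
        (Finset.univ.filter (fun x : Fin M → F => (hank Θ e M).mulVec x = w')).card :=
      Finset.card_eq_sum_card_fiberwise (fun x _ => Finset.mem_univ _)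
    rw [Finset.sum_congr rfl (fun w' _ => hfib w'), Finset.sum_const, Finset.card_univ,
      Finset.card_univ, Fintype.card_fun, Fintype.card_fun, Fintype.card_fin, Fintype.card_fin,
      smul_eq_mul] at h1
    exact h1
  have h2 : Fintype.card F ^ M = Fintype.card F ^ e * Fintype.card F ^ (M - e) := by
    rw [← pow_add]
    congr 1
    omega
  rw [h2] at htot
  exact (Nat.eq_of_mul_eq_mul_left (pow_pos Fintype.card_pos e) htot).symm

/-! ### the value `ev_q` of a fractional part -/

variable (E : F ≃ Fin (Fintype.card F))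

/-- `ev_q` of the fractional part of `Θ` -/
noncomputable def yv (Θ : LaurentSeries F) : ℝ :=
  ∑' i : ℕ, ((E (Θ.coeff ((i : ℤ) + 1)) : ℕ) : ℝ) / (Fintype.card F : ℝ) ^ (i + 1)

/-- the number with the first `e` digits -/
def idx (Θ : LaurentSeries F) (e : ℕ) : ℕ :=
  ∑ j ∈ Finset.range e, (E (Θ.coeff ((e : ℤ) - j)) : ℕ) * Fintype.card F ^ j

lemma idx_succ (Θ : LaurentSeries F) (e : ℕ) :
    idx E Θ (e + 1) = Fintype.card F * idx E Θ e + (E (Θ.coeff ((e : ℤ) + 1)) : ℕ) := by
  unfold idx
  rw [Finset.sum_range_succ', Finset.mul_sum]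
  congr 1
  · apply Finset.sum_congr rfl
    intro j _
    have e1 : ((e + 1 : ℕ) : ℤ) - ((j + 1 : ℕ) : ℤ) = (e : ℤ) - j := by push_cast; ring
    rw [e1]
    ring
  · simp

lemma idx_lt (Θ : LaurentSeries F) (e : ℕ) : idx E Θ e < Fintype.card F ^ e :=
  sum_lt _ (fun j => (E (Θ.coeff ((e : ℤ) - j)) : ℕ)) (fun _ => (E _).2) e

lemma partial_sum (Θ : LaurentSeries F) (e : ℕ) :
    ∑ i ∈ Finset.range e, ((E (Θ.coeff ((i : ℤ) + 1)) : ℕ) : ℝ) / (Fintype.card F : ℝ) ^ (i + 1) =
      (idx E Θ e : ℝ) / (Fintype.card F : ℝ) ^ e := by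
  have hq : (0:ℝ) < Fintype.card F := by exact_mod_cast Fintype.card_pos
  induction e with
  | zero => simp [idx]
  | succ e ih =>
    rw [Finset.sum_range_succ, ih, idx_succ]
    push_cast
    field_simp
    ring

lemma term_le (Θ : LaurentSeries F) (i : ℕ) :
    ((E (Θ.coeff ((i : ℤ) + 1)) : ℕ) : ℝ) / (Fintype.card F : ℝ) ^ (i + 1) ≤
      ((Fintype.card F : ℝ) - 1) / (Fintype.card F : ℝ) ^ (i + 1) := by
  have hq : (0:ℝ) < Fintype.card F := by exact_mod_cast Fintype.card_pos
  apply div_le_div_of_nonneg_right _ (by positivity)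
  have h1 : (E (Θ.coeff ((i : ℤ) + 1)) : ℕ) + 1 ≤ Fintype.card F := (E _).2
  have h2 : ((E (Θ.coeff ((i : ℤ) + 1)) : ℕ) : ℝ) + 1 ≤ Fintype.card F := by exact_mod_cast h1
  linarith

omit [Field F] in
lemma geom_tail [Nontrivial F] (e : ℕ) : HasSum (fun i : ℕ => ((Fintype.card F : ℝ) - 1) /
    (Fintype.card F : ℝ) ^ (i + e + 1)) (1 / (Fintype.card F : ℝ) ^ e) := by
  have hq : (1:ℝ) < Fintype.card F := by exact_mod_cast Fintype.one_lt_card
  have hq0 : (0:ℝ) < Fintype.card F := by linarith
  have h1 := (hasSum_geometric_of_lt_one (r := (Fintype.card F : ℝ)⁻¹) (by positivity)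
    (inv_lt_one_of_one_lt₀ hq)).mul_left (((Fintype.card F : ℝ) - 1) / (Fintype.card F : ℝ) ^ (e + 1))
  have e1 : (fun i : ℕ => ((Fintype.card F : ℝ) - 1) / (Fintype.card F : ℝ) ^ (i + e + 1)) =
      fun i : ℕ => ((Fintype.card F : ℝ) - 1) / (Fintype.card F : ℝ) ^ (e + 1) *
        (Fintype.card F : ℝ)⁻¹ ^ i := by
    funext i
    rw [inv_pow, ← div_eq_mul_inv, div_div, ← pow_add]
    congr 2
    ring
  have e2 : 1 / (Fintype.card F : ℝ) ^ e = ((Fintype.card F : ℝ) - 1) /
      (Fintype.card F : ℝ) ^ (e + 1) * (1 - (Fintype.card F : ℝ)⁻¹)⁻¹ := by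
    have h2 : (Fintype.card F : ℝ) - 1 ≠ 0 := by linarith
    have h3 : 1 - (Fintype.card F : ℝ)⁻¹ = ((Fintype.card F : ℝ) - 1) / Fintype.card F := by
      field_simp
    rw [h3, pow_succ]
    field_simp
  rw [e1, e2]
  exact h1

lemma yv_summable (Θ : LaurentSeries F) : Summable (fun i : ℕ =>
    ((E (Θ.coeff ((i : ℤ) + 1)) : ℕ) : ℝ) / (Fintype.card F : ℝ) ^ (i + 1)) := by
  apply Summable.of_nonneg_of_le (fun i => by positivity) (term_le E Θ)
  exact (geom_tail (F := F) 0).summable

lemma yv_bounds (Θ : LaurentSeries F) (e : ℕ) :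
    (idx E Θ e : ℝ) / (Fintype.card F : ℝ) ^ e ≤ yv E Θ ∧
      yv E Θ ≤ ((idx E Θ e : ℝ) + 1) / (Fintype.card F : ℝ) ^ e := by
  have hs := yv_summable E Θ
  have h1 := hs.sum_add_tsum_nat_add e
  rw [partial_sum] at h1
  unfold yv
  rw [← h1]
  have hs' := (summable_nat_add_iff e).2 hs
  have h2 : 0 ≤ ∑' i : ℕ, ((E (Θ.coeff (((i + e : ℕ) : ℤ) + 1)) : ℕ) : ℝ) /
      (Fintype.card F : ℝ) ^ (i + e + 1) := tsum_nonneg fun i => by positivity
  have h3 : ∑' i : ℕ, ((E (Θ.coeff (((i + e : ℕ) : ℤ) + 1)) : ℕ) : ℝ) /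
      (Fintype.card F : ℝ) ^ (i + e + 1) ≤ 1 / (Fintype.card F : ℝ) ^ e := by
    rw [← (geom_tail (F := F) e).tsum_eq]
    exact hs'.tsum_le_tsum (fun i => term_le E Θ (i + e)) (geom_tail (F := F) e).summable
  constructor
  · linarith
  · rw [add_div]
    linarith

lemma count_lt_upper (n : ℕ) (t : ℝ) (ht : 0 ≤ t) :
    (((Finset.range n).filter (fun h : ℕ => (h:ℝ) < t)).card : ℝ) ≤ t + 1 := by
  have h1 : (Finset.range n).filter (fun h : ℕ => (h:ℝ) < t) ⊆ Finset.range ⌈t⌉₊ := by
    intro h hh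
    rw [Finset.mem_filter] at hh
    rw [Finset.mem_range, Nat.lt_ceil]
    exact hh.2
  have h2 := Finset.card_le_card h1
  rw [Finset.card_range] at h2
  have h3 : (((Finset.range n).filter (fun h : ℕ => (h:ℝ) < t)).card : ℝ) ≤ (⌈t⌉₊ : ℝ) := by
    exact_mod_cast h2
  have h4 := Nat.ceil_lt_add_one ht
  linarith

lemma count_lt_lower (n : ℕ) (t : ℝ) (ht : t ≤ n) :
    t ≤ (((Finset.range n).filter (fun h : ℕ => (h:ℝ) < t)).card : ℝ) := by
  have h1 : Finset.range ⌈t⌉₊ ⊆ (Finset.range n).filter (fun h : ℕ => (h:ℝ) < t) := by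
    intro h hh
    rw [Finset.mem_range, Nat.lt_ceil] at hh
    rw [Finset.mem_filter, Finset.mem_range]
    refine ⟨?_, hh⟩
    have : (h:ℝ) < n := by linarith
    exact_mod_cast this
  have h2 := Finset.card_le_card h1
  rw [Finset.card_range] at h2
  have h3 : (⌈t⌉₊ : ℝ) ≤ (((Finset.range n).filter (fun h : ℕ => (h:ℝ) < t)).card : ℝ) := by
    exact_mod_cast h2
  have h4 := Nat.le_ceil t
  linarith

/-- the word of the first digits determines `idx` bijectively -/
noncomputable def wval (e : ℕ) (w : Fin e → F) : ℕ :=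
  ∑ j : Fin e, (E (w j) : ℕ) * Fintype.card F ^ (j : ℕ)

lemma wval_eq (e : ℕ) (w : Fin e → F) : wval E e w =
    ∑ j ∈ Finset.range e, (if h : j < e then (E (w ⟨j, h⟩) : ℕ) else 0) * Fintype.card F ^ j := by
  unfold wval
  rw [Finset.sum_range]
  apply Finset.sum_congr rfl
  intro j _
  simp

lemma wval_lt (e : ℕ) (w : Fin e → F) : wval E e w < Fintype.card F ^ e := by
  rw [wval_eq]
  apply sum_lt
  intro j
  split_ifs
  · exact (E _).2
  · exact Fintype.card_pos

lemma wval_injective (e : ℕ) : Function.Injective (wval E e) := by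
  intro w w' h
  ext j
  apply E.injective
  apply Fin.ext
  have key : ∀ w : Fin e → F, wval E e w / Fintype.card F ^ (j:ℕ) % Fintype.card F =
      (E (w j) : ℕ) := by
    intro w
    rw [wval_eq, sum_digit _ (fun j => if h : j < e then (E (w ⟨j, h⟩) : ℕ) else 0) _ e j j.2]
    · simp
    · intro i
      split_ifs
      · exact (E _).2
      · exact Fintype.card_pos
  rw [← key w, ← key w', h]

open Classical in
lemma count_words (e : ℕ) (H : ℕ → Prop) :
    (Finset.univ.filter (fun w : Fin e → F => H (wval E e w))).card =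
      ((Finset.range (Fintype.card F ^ e)).filter H).card := by
  have hbij : Finset.image (wval E e) Finset.univ = Finset.range (Fintype.card F ^ e) := by
    apply Finset.eq_of_subset_of_card_le
    · intro n hn
      rw [Finset.mem_image] at hn
      obtain ⟨w, -, rfl⟩ := hn
      exact Finset.mem_range.2 (wval_lt E e w)
    · rw [Finset.card_image_of_injective _ (wval_injective E e), Finset.card_range,
        Finset.card_univ, Fintype.card_fun, Fintype.card_fin]
  rw [← hbij, Finset.filter_image, Finset.card_image_of_injective _ (wval_injective E e)]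

open Classical in
/-- **The count in one block.** -/
lemma block_core (c Θ : LaurentSeries F) (s M : ℕ)
    (hB : ∀ N : F[X], N ≠ 0 → ∃ i : ℕ, 1 ≤ i ∧ i ≤ N.natDegree + s ∧
      (emb N * Θ).coeff (i : ℤ) ≠ 0) (γ : ℝ) (hγ0 : 0 ≤ γ) (hγ1 : γ ≤ 1) :
    |((Finset.univ.filter (fun x : Fin M → F => yv E (c + emb (poly x) * Θ) < γ)).card : ℝ) -
      γ * (Fintype.card F : ℝ) ^ M| ≤ (Fintype.card F : ℝ) ^ s := by
  have hq1 : (1:ℝ) ≤ Fintype.card F := by exact_mod_cast Fintype.card_pos
  have hq0 : (0:ℝ) < Fintype.card F := by linarith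
  set e := M - s with he
  have hfib := hank_fiber Θ e M (by omega) (by
    intro N hN hdeg
    obtain ⟨i, h1, h2, h3⟩ := hB N hN
    exact ⟨i, h1, by omega, h3⟩)
  -- the digits
  have hidx : ∀ x : Fin M → F, idx E (c + emb (poly x) * Θ) e =
      wval E e (fun j => c.coeff ((e:ℤ) - (j:ℕ)) + (hank Θ e M).mulVec x j) := by
    intro x
    unfold idx wval
    rw [Finset.sum_range]
    apply Finset.sum_congr rfl
    intro j _
    rw [HahnSeries.coeff_add, coeff_emb_poly]
    congr 4
    unfold hank Matrix.mulVec dotProduct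
    apply Finset.sum_congr rfl
    intro l _
    ring
  have hcount : ∀ H : ℕ → Prop,
      (Finset.univ.filter (fun x : Fin M → F => H (idx E (c + emb (poly x) * Θ) e))).card =
      ((Finset.range (Fintype.card F ^ e)).filter H).card * Fintype.card F ^ (M - e) := by
    intro H
    rw [← count_words E e H]
    rw [Finset.card_eq_sum_card_fiberwise (f := fun x : Fin M → F =>
      (fun j : Fin e => c.coeff ((e:ℤ) - (j:ℕ)) + (hank Θ e M).mulVec x j))
      (t := Finset.univ.filter (fun w : Fin e → F => H (wval E e w)))]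
    · rw [Finset.sum_const_nat (m := Fintype.card F ^ (M - e))]
      intro w hw
      rw [Finset.mem_filter] at hw
      rw [← hfib (fun j => w j - c.coeff ((e:ℤ) - (j:ℕ))), Finset.filter_filter]
      congr 1
      apply Finset.filter_congr
      intro x _
      constructor
      · rintro ⟨-, h⟩
        ext j
        rw [← h]
        ring
      · intro h
        have h' : (fun j : Fin e => c.coeff ((e:ℤ) - (j:ℕ)) + (hank Θ e M).mulVec x j) = w := by
          ext j
          rw [h]
          ring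
        refine ⟨?_, h'⟩
        rw [hidx, h']
        exact hw.2
    · intro x hx
      rw [Finset.mem_coe, Finset.mem_filter] at hx ⊢
      refine ⟨Finset.mem_univ _, ?_⟩
      rw [← hidx]
      exact hx.2
  have hqe : (0:ℝ) < (Fintype.card F : ℝ) ^ e := by positivity
  have hpow : (Fintype.card F : ℝ) ^ M = (Fintype.card F : ℝ) ^ e * (Fintype.card F : ℝ) ^ (M - e) := by
    rw [← pow_add]
    congr 1
    omega
  have hMe : (Fintype.card F : ℝ) ^ (M - e) ≤ (Fintype.card F : ℝ) ^ s :=
    pow_le_pow_right₀ hq1 (by omega)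
  have hMe0 : 0 < (Fintype.card F : ℝ) ^ (M - e) := by positivity
  -- upper bound
  have hup : ((Finset.univ.filter (fun x : Fin M → F =>
      yv E (c + emb (poly x) * Θ) < γ)).card : ℝ) ≤
      (γ * (Fintype.card F : ℝ) ^ e + 1) * (Fintype.card F : ℝ) ^ (M - e) := by
    have h1 : (Finset.univ.filter (fun x : Fin M → F =>
        yv E (c + emb (poly x) * Θ) < γ)).card ≤ (Finset.univ.filter (fun x : Fin M → F =>
        ((idx E (c + emb (poly x) * Θ) e : ℕ) : ℝ) < γ * (Fintype.card F : ℝ) ^ e)).card := by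
      apply Finset.card_le_card
      intro x hx
      rw [Finset.mem_filter] at hx ⊢
      refine ⟨hx.1, ?_⟩
      have h2 := (yv_bounds E (c + emb (poly x) * Θ) e).1
      rw [div_le_iff₀ hqe] at h2
      have h3 := hx.2
      nlinarith
    rw [hcount (fun h => (h:ℝ) < γ * (Fintype.card F : ℝ) ^ e)] at h1
    have h4 := count_lt_upper (Fintype.card F ^ e) (γ * (Fintype.card F : ℝ) ^ e) (by positivity)
    calc ((Finset.univ.filter (fun x : Fin M → F =>
        yv E (c + emb (poly x) * Θ) < γ)).card : ℝ) ≤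
        (((Finset.range (Fintype.card F ^ e)).filter
          (fun h : ℕ => (h:ℝ) < γ * (Fintype.card F : ℝ) ^ e)).card : ℝ) *
          (Fintype.card F : ℝ) ^ (M - e) := by exact_mod_cast h1
      _ ≤ _ := by gcongr
  -- lower bound
  have hlow : (γ * (Fintype.card F : ℝ) ^ e - 1) * (Fintype.card F : ℝ) ^ (M - e) ≤
      ((Finset.univ.filter (fun x : Fin M → F =>
      yv E (c + emb (poly x) * Θ) < γ)).card : ℝ) := by
    have h1 : (Finset.univ.filter (fun x : Fin M → F =>
        ((idx E (c + emb (poly x) * Θ) e : ℕ) : ℝ) < γ * (Fintype.card F : ℝ) ^ e - 1)).card ≤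
        (Finset.univ.filter (fun x : Fin M → F =>
        yv E (c + emb (poly x) * Θ) < γ)).card := by
      apply Finset.card_le_card
      intro x hx
      rw [Finset.mem_filter] at hx ⊢
      refine ⟨hx.1, ?_⟩
      have h2 := (yv_bounds E (c + emb (poly x) * Θ) e).2
      refine lt_of_le_of_lt h2 ?_
      rw [div_lt_iff₀ hqe]
      linarith [hx.2]
    rw [hcount (fun h => (h:ℝ) < γ * (Fintype.card F : ℝ) ^ e - 1)] at h1
    have h4 := count_lt_lower (Fintype.card F ^ e) (γ * (Fintype.card F : ℝ) ^ e - 1) (by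
      push_cast
      nlinarith)
    calc (γ * (Fintype.card F : ℝ) ^ e - 1) * (Fintype.card F : ℝ) ^ (M - e) ≤
        (((Finset.range (Fintype.card F ^ e)).filter
          (fun h : ℕ => (h:ℝ) < γ * (Fintype.card F : ℝ) ^ e - 1)).card : ℝ) *
          (Fintype.card F : ℝ) ^ (M - e) := by gcongr
      _ ≤ _ := by exact_mod_cast h1
  rw [hpow, abs_le]
  constructor <;> nlinarith

end Q271.FF
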