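import Mathlib
import Pool.Agent.Q271.FF.Block

/-!
# Counting in residue classes modulo `P ^ k`
-/

set_option autoImplicit false

namespace Q271.FF

open Polynomial

variable {F : Type} [Field F] [Fintype F] (E : F ≃ Fin (Fintype.card F)) (hE : (E 0 : ℕ) = 0)

lemma card_range_add (p : ℕ → Prop) [DecidablePred p] (a b : ℕ) :
    ((Finset.range (a + b)).filter p).card = ((Finset.range a).filter p).card +
      ((Finset.range b).filter (fun n => p (a + n))).card := by
  rw [Finset.range_add_eq_union, Finset.filter_union, Finset.card_union_of_disjoint]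
  · congr 1
    rw [Finset.filter_map, Finset.card_map]
    rfl
  · apply Finset.disjoint_filter_filter
    exact Finset.disjoint_range_addLeftEmbedding a _

/-- the hypothesis on `Θ` -/
def BadS (Θ : LaurentSeries F) (P : F[X]) (s : ℕ) : Prop :=
  ∀ (k : ℕ) (N : F[X]), N ≠ 0 → ∃ i : ℕ, 1 ≤ i ∧ i ≤ N.natDegree + s ∧
    (emb N * (emb (P ^ k) * Θ)).coeff (i : ℤ) ≠ 0

/-- the number of `n < N` such that `f = t ^ m U + n(t)` is congruent to `r` modulo `P ^ k` and has
`ev_q ⟨f Θ⟩ < γ` -/
noncomputable def cnt (Θ : LaurentSeries F) (γ : ℝ) (P r U : F[X]) (k m N : ℕ) : ℕ := by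
  classical
  exact ((Finset.range N).filter (fun n : ℕ => P ^ k ∣ (X ^ m * U + toPoly E n - r) ∧
    yv E (emb (X ^ m * U + toPoly E n) * Θ) < γ)).card

include hE in
lemma cnt_block (Θ : LaurentSeries F) (γ : ℝ) (hγ0 : 0 ≤ γ) (hγ1 : γ ≤ 1) (P : F[X])
    (hP : 1 ≤ P.natDegree) (s : ℕ) (hB : BadS Θ P s) (r U : F[X]) (k m : ℕ) :
    |(cnt E Θ γ P r U k m (Fintype.card F ^ m) : ℝ) -
      γ * (Fintype.card F : ℝ) ^ m / ((Fintype.card F : ℝ) ^ P.natDegree) ^ k| ≤
      (Fintype.card F : ℝ) ^ s := by
  classical
  have hq1 : (1:ℝ) ≤ Fintype.card F := by exact_mod_cast Fintype.card_pos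
  have hq0 : (0:ℝ) < Fintype.card F := by linarith
  have hs1 : (1:ℝ) ≤ (Fintype.card F : ℝ) ^ s := one_le_pow₀ hq1
  have hP0 : P ≠ 0 := by
    rintro rfl
    simp at hP
  have hPk0 : P ^ k ≠ 0 := pow_ne_zero k hP0
  have hPk : (P ^ k).natDegree = P.natDegree * k := by rw [natDegree_pow, mul_comm]
  rcases Nat.lt_or_ge m (P.natDegree * k) with hm | hm
  · -- at most one element
    have h1 : cnt E Θ γ P r U k m (Fintype.card F ^ m) ≤ 1 := by
      unfold cnt
      rw [Finset.card_le_one]
      intro a ha b hb
      rw [Finset.mem_filter, Finset.mem_range] at ha hb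
      apply toPoly_injective E hE
      have h2 : P ^ k ∣ toPoly E a - toPoly E b := by
        have := dvd_sub ha.2.1 hb.2.1
        have e : X ^ m * U + toPoly E a - r - (X ^ m * U + toPoly E b - r) =
          toPoly E a - toPoly E b := by ring
        rwa [e] at this
      have h3 : (toPoly E a - toPoly E b).degree < (P ^ k).degree := by
        rw [degree_eq_natDegree hPk0, hPk]
        refine lt_of_le_of_lt (degree_sub_le _ _) (max_lt ?_ ?_)
        · exact lt_of_lt_of_le (toPoly_degree_lt E hE a m ha.1) (by exact_mod_cast hm.le)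
        · exact lt_of_lt_of_le (toPoly_degree_lt E hE b m hb.1) (by exact_mod_cast hm.le)
      have h4 := eq_zero_of_dvd_of_degree_lt h2 h3
      exact sub_eq_zero.1 h4
    have h2 : (cnt E Θ γ P r U k m (Fintype.card F ^ m) : ℝ) ≤ 1 := by exact_mod_cast h1
    have h3 : (0:ℝ) ≤ cnt E Θ γ P r U k m (Fintype.card F ^ m) := by positivity
    have h4 : γ * (Fintype.card F : ℝ) ^ m / ((Fintype.card F : ℝ) ^ P.natDegree) ^ k ≤ 1 := by
      rw [div_le_one (by positivity), ← pow_mul]
      calc γ * (Fintype.card F : ℝ) ^ m ≤ 1 * (Fintype.card F : ℝ) ^ m := by gcongr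
        _ ≤ (Fintype.card F : ℝ) ^ (P.natDegree * k) := by
          rw [one_mul]
          exact pow_le_pow_right₀ hq1 hm.le
    have h5 : 0 ≤ γ * (Fintype.card F : ℝ) ^ m / ((Fintype.card F : ℝ) ^ P.natDegree) ^ k := by
      positivity
    rw [abs_le]
    constructor <;> linarith
  · -- the block
    set M := m - P.natDegree * k with hM
    set v0 := (r - X ^ m * U) % (P ^ k) with hv0
    have hv0deg : v0.degree < (P ^ k).degree := EuclideanDomain.mod_lt _ hPk0
    have hPkdeg : (P ^ k).degree = ((P.natDegree * k : ℕ) : WithBot ℕ) := by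
      rw [degree_eq_natDegree hPk0, hPk]
    have hv0m : v0.degree < m := by
      refine lt_of_lt_of_le hv0deg ?_
      rw [hPkdeg]
      exact_mod_cast hm
    have hv0dvd : P ^ k ∣ (r - X ^ m * U) - v0 := by
      refine ⟨(r - X ^ m * U) / (P ^ k), ?_⟩
      have := EuclideanDomain.div_add_mod (r - X ^ m * U) (P ^ k)
      rw [← hv0] at this
      linear_combination -this
    have hcore := block_core E (emb (X ^ m * U + v0) * Θ) (emb (P ^ k) * Θ) s M (hB k) γ hγ0 hγ1
    have hpow : γ * (Fintype.card F : ℝ) ^ m / ((Fintype.card F : ℝ) ^ P.natDegree) ^ k =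
        γ * (Fintype.card F : ℝ) ^ M := by
      rw [div_eq_iff (by positivity), ← pow_mul, mul_assoc, ← pow_add]
      congr 2
      omega
    rw [hpow]
    have hdegx : ∀ x : Fin M → F, (v0 + P ^ k * poly x).degree < m := by
      intro x
      refine lt_of_le_of_lt (degree_add_le _ _) (max_lt hv0m ?_)
      rw [degree_mul, hPkdeg]
      rcases eq_or_ne (poly x) 0 with h0 | h0
      · rw [h0, degree_zero]
        simp
      · have h1 := poly_degree_lt x
        rw [degree_eq_natDegree h0] at h1 ⊢
        have h2 : (poly x).natDegree < M := by exact_mod_cast h1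
        have h3 : P.natDegree * k + (poly x).natDegree < m := by omega
        exact_mod_cast h3
    have hcard : cnt E Θ γ P r U k m (Fintype.card F ^ m) =
        (Finset.univ.filter (fun x : Fin M → F =>
          yv E (emb (X ^ m * U + v0) * Θ + emb (poly x) * (emb (P ^ k) * Θ)) < γ)).card := by
      unfold cnt
      symm
      apply Finset.card_bij (fun x _ => ev E (v0 + P ^ k * poly x))
      · intro x hx
        rw [Finset.mem_filter] at hx
        rw [Finset.mem_filter, Finset.mem_range, toPoly_ev E hE]
        refine ⟨ev_lt E hE _ m (hdegx x), ?_, ?_⟩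
        · have e : X ^ m * U + (v0 + P ^ k * poly x) - r =
            P ^ k * poly x - ((r - X ^ m * U) - v0) := by ring
          rw [e]
          exact dvd_sub (Dvd.intro _ rfl) hv0dvd
        · have e : emb (X ^ m * U + (v0 + P ^ k * poly x)) * Θ =
            emb (X ^ m * U + v0) * Θ + emb (poly x) * (emb (P ^ k) * Θ) := by
            have e2 : X ^ m * U + (v0 + P ^ k * poly x) =
              (X ^ m * U + v0) + poly x * P ^ k := by ring
            rw [e2, map_add, map_mul]
            ring
          rw [e]
          exact hx.2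
      · intro x _ x' _ h
        have h1 : v0 + P ^ k * poly x = v0 + P ^ k * poly x' := by
          rw [← toPoly_ev E hE (v0 + P ^ k * poly x), h, toPoly_ev E hE]
        have h2 := mul_left_cancel₀ hPk0 (add_left_cancel h1)
        exact poly_injective h2
      · intro n hn
        rw [Finset.mem_filter, Finset.mem_range] at hn
        have h1 : P ^ k ∣ toPoly E n - v0 := by
          have := dvd_add hn.2.1 hv0dvd
          have e : X ^ m * U + toPoly E n - r + (r - X ^ m * U - v0) = toPoly E n - v0 := by ring
          rwa [e] at this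
        obtain ⟨l, hl⟩ := h1
        have hn' : toPoly E n = v0 + P ^ k * l := by linear_combination hl
        have hldeg : l.degree < M := by
          rcases eq_or_ne l 0 with h0 | h0
          · rw [h0, degree_zero]
            exact WithBot.bot_lt_coe _
          · have h2 : (P ^ k * l).degree < m := by
              rw [← hl]
              exact lt_of_le_of_lt (degree_sub_le _ _)
                (max_lt (toPoly_degree_lt E hE n m hn.1) hv0m)
            rw [degree_mul, hPkdeg, degree_eq_natDegree h0] at h2
            rw [degree_eq_natDegree h0]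
            have h3 : P.natDegree * k + l.natDegree < m := by exact_mod_cast h2
            have h4 : l.natDegree < M := by omega
            exact_mod_cast h4
        refine ⟨fun j => l.coeff j, ?_, ?_⟩
        · rw [Finset.mem_filter]
          refine ⟨Finset.mem_univ _, ?_⟩
          rw [poly_of_degree_lt l hldeg]
          have e : emb (X ^ m * U + toPoly E n) * Θ =
            emb (X ^ m * U + v0) * Θ + emb l * (emb (P ^ k) * Θ) := by
            have e2 : X ^ m * U + toPoly E n = (X ^ m * U + v0) + l * P ^ k := by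
              rw [hn']; ring
            rw [e2, map_add, map_mul]
            ring
          rw [← e]
          exact hn.2.2
        · rw [poly_of_degree_lt l hldeg, ← hn', ev_toPoly E hE]
    rw [hcard]
    exact hcore

include hE in
/-- **The count for all `N ≤ q ^ m`.** -/
lemma cnt_le (Θ : LaurentSeries F) (γ : ℝ) (hγ0 : 0 ≤ γ) (hγ1 : γ ≤ 1) (P : F[X])
    (hP : 1 ≤ P.natDegree) (s : ℕ) (hB : BadS Θ P s) (r : F[X]) (k m : ℕ) :
    ∀ (U : F[X]) (N : ℕ), N ≤ Fintype.card F ^ m →
    |(cnt E Θ γ P r U k m N : ℝ) - γ * N / ((Fintype.card F : ℝ) ^ P.natDegree) ^ k| ≤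
      (Fintype.card F * m + 1) * (Fintype.card F : ℝ) ^ s := by
  classical
  have hq : 0 < Fintype.card F := Fintype.card_pos
  have hq1 : (1:ℝ) ≤ Fintype.card F := by exact_mod_cast Fintype.card_pos
  have hq0 : (0:ℝ) < Fintype.card F := by linarith
  set Q : ℝ := ((Fintype.card F : ℝ) ^ P.natDegree) ^ k with hQ
  have hQ0 : 0 < Q := by positivity
  set S : ℝ := (Fintype.card F : ℝ) ^ s with hS
  have hS0 : 0 < S := by positivity
  have hfull : ∀ (m : ℕ) (U : F[X]), |(cnt E Θ γ P r U k m (Fintype.card F ^ m) : ℝ) -
      γ * ((Fintype.card F ^ m : ℕ) : ℝ) / Q| ≤ S := by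
    intro m U
    have h1 := cnt_block E hE Θ γ hγ0 hγ1 P hP s hB r U k m
    push_cast
    exact h1
  -- shifting
  have hshift : ∀ (m x a : ℕ) (U : F[X]), a ≤ Fintype.card F ^ m → ∀ b : ℕ,
      cnt E Θ γ P r U k (m + 1) (b * Fintype.card F ^ m + a) =
      cnt E Θ γ P r U k (m + 1) (b * Fintype.card F ^ m) +
      cnt E Θ γ P r (X * U + toPoly E b) k m a := by
    intro m x a U ha b
    unfold cnt
    rw [card_range_add]
    congr 1
    congr 1
    apply Finset.filter_congr
    intro n hn
    rw [Finset.mem_range] at hn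
    rw [toPoly_add E hE b n m (by omega)]
    have e : X ^ (m + 1) * U + (X ^ m * toPoly E b + toPoly E n) =
        X ^ m * (X * U + toPoly E b) + toPoly E n := by ring
    rw [e]
  -- several full blocks
  have hblocks : ∀ (m b : ℕ) (U : F[X]),
      |(cnt E Θ γ P r U k (m + 1) (b * Fintype.card F ^ m) : ℝ) -
        γ * ((b * Fintype.card F ^ m : ℕ) : ℝ) / Q| ≤ b * S := by
    intro m b U
    induction b with
    | zero => simp [cnt]
    | succ b ih =>
      have e : (b + 1) * Fintype.card F ^ m = b * Fintype.card F ^ m + Fintype.card F ^ m := by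
        ring
      rw [e, hshift m 0 _ U le_rfl b]
      have h2 := hfull m (X * U + toPoly E b)
      have e2 : γ * ((b * Fintype.card F ^ m + Fintype.card F ^ m : ℕ) : ℝ) / Q =
          γ * ((b * Fintype.card F ^ m : ℕ) : ℝ) / Q + γ * ((Fintype.card F ^ m : ℕ) : ℝ) / Q := by
        push_cast; ring
      rw [e2]
      rw [abs_le] at ih h2 ⊢
      rw [Nat.cast_add]
      push_cast at *
      constructor <;> linarith [ih.1, ih.2, h2.1, h2.2]
  induction m with
  | zero =>
    intro U N hN
    have hN' : N = 0 ∨ N = 1 := by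
      simp at hN
      omega
    rcases hN' with rfl | rfl
    · have : cnt E Θ γ P r U k 0 0 = 0 := by simp [cnt]
      rw [this]
      simp only [Nat.cast_zero, mul_zero, zero_div, sub_zero, abs_zero, zero_add, one_mul]
      exact hS0.le
    · have h1 := hfull 0 U
      simp only [pow_zero, Nat.cast_one, Nat.cast_zero, mul_zero, zero_add, one_mul] at h1 ⊢
      exact h1
  | succ m ih =>
    intro U N hN
    rcases eq_or_lt_of_le hN with rfl | hlt
    · refine (hfull (m + 1) U).trans ?_
      apply le_mul_of_one_le_left hS0.le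
      have : (0:ℝ) ≤ Fintype.card F * ((m + 1 : ℕ) : ℝ) := by positivity
      linarith
    · set b := N / Fintype.card F ^ m with hb
      set a := N % Fintype.card F ^ m with ha
      have hqm : 0 < Fintype.card F ^ m := pow_pos hq m
      have hab : b * Fintype.card F ^ m + a = N := Nat.div_add_mod' N _
      have ha' : a ≤ Fintype.card F ^ m := (Nat.mod_lt _ hqm).le
      have hb' : b < Fintype.card F := by
        rw [hb, Nat.div_lt_iff_lt_mul hqm, mul_comm, ← pow_succ]
        exact hlt
      have hb'' : (b:ℝ) ≤ Fintype.card F := by exact_mod_cast hb'.le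
      have h1 := hblocks m b U
      have h2 := ih (X * U + toPoly E b) a ha'
      have e3 : γ * (N : ℝ) / Q = γ * ((b * Fintype.card F ^ m : ℕ) : ℝ) / Q + γ * (a:ℝ) / Q := by
        have : (N:ℝ) = ((b * Fintype.card F ^ m : ℕ) : ℝ) + a := by exact_mod_cast hab.symm
        rw [this]; ring
      have e4 : (cnt E Θ γ P r U k (m + 1) N : ℝ) =
          cnt E Θ γ P r U k (m + 1) (b * Fintype.card F ^ m) +
          cnt E Θ γ P r (X * U + toPoly E b) k m a := by
        rw [← hab, hshift m 0 a U ha' b]
        push_cast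
        ring
      rw [e3, e4]
      have h3 : b * S ≤ Fintype.card F * S := by gcongr
      rw [abs_le] at h1 h2 ⊢
      push_cast at *
      constructor <;> nlinarith [h1.1, h1.2, h2.1, h2.2]

end Q271.FF
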