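import Mathlib
import Pool.Agent.Q271.FF.Count

/-!
# The digital van der Corput sequence and the count in two dimensions
-/

set_option autoImplicit false

namespace Q271.FF

open Polynomial

variable {F : Type} [Field F]

lemma div_eq_of (D h r : F[X]) (hD : D ≠ 0) (hr : r.degree < D.degree) :
    (D * h + r) / D = h := by
  set f := D * h + r with hf
  have h1 := EuclideanDomain.div_add_mod f D
  have h2 : (f % D).degree < D.degree := EuclideanDomain.mod_lt _ hD
  have h3 : D * (f / D - h) = r - f % D := by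
    rw [mul_sub]
    linear_combination h1 + hf
  have h4 : (r - f % D).degree < D.degree :=
    lt_of_le_of_lt (degree_sub_le _ _) (max_lt hr h2)
  have h5 : r - f % D = 0 := eq_zero_of_dvd_of_degree_lt (Dvd.intro _ h3) h4
  rw [h5] at h3
  rcases mul_eq_zero.1 h3 with h6 | h6
  · exact absurd h6 hD
  · exact sub_eq_zero.1 h6

lemma div_pow_succ (f P : F[X]) (hP : P ≠ 0) (i : ℕ) : f / P ^ (i + 1) = f / P / P ^ i := by
  have hPi : P ^ i ≠ 0 := pow_ne_zero i hP
  have h1 := EuclideanDomain.div_add_mod f P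
  have h2 := EuclideanDomain.div_add_mod (f / P) (P ^ i)
  have h3 : (f % P).degree < P.degree := EuclideanDomain.mod_lt _ hP
  have h4 : (f / P % P ^ i).degree < (P ^ i).degree := EuclideanDomain.mod_lt _ hPi
  have h5 : f = P ^ (i + 1) * (f / P / P ^ i) + (P * (f / P % P ^ i) + f % P) := by
    rw [pow_succ']
    linear_combination -h1 - P * h2
  have h6 : (P * (f / P % P ^ i) + f % P).degree < (P ^ (i + 1)).degree := by
    refine lt_of_le_of_lt (degree_add_le _ _) (max_lt ?_ ?_)
    · rw [pow_succ', degree_mul, degree_mul]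
      rcases eq_or_ne (f / P % P ^ i) 0 with h0 | h0
      · rw [h0, degree_zero]
        rw [degree_eq_natDegree hP, degree_eq_natDegree hPi]
        simp only [WithBot.add_bot]
        exact WithBot.bot_lt_coe _
      · rw [degree_eq_natDegree hP, degree_eq_natDegree hPi, degree_eq_natDegree h0]
        rw [degree_eq_natDegree h0, degree_eq_natDegree hPi] at h4
        have h7 : (f / P % P ^ i).natDegree < (P ^ i).natDegree := by exact_mod_cast h4
        exact_mod_cast Nat.add_lt_add_left h7 _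
    · refine lt_of_lt_of_le h3 ?_
      rw [pow_succ', degree_mul]
      rw [degree_eq_natDegree hP, degree_eq_natDegree hPi]
      exact_mod_cast Nat.le_add_right _ _
  conv_lhs => rw [h5]
  exact div_eq_of _ _ _ (pow_ne_zero _ hP) h6

variable [Fintype F] (E : F ≃ Fin (Fintype.card F)) (hE : (E 0 : ℕ) = 0)

/-- the van der Corput value of the polynomial `g` -/
noncomputable def V (P g : F[X]) : ℝ :=
  ∑' i : ℕ, (ev E (g / P ^ i % P) : ℝ) / ((Fintype.card F : ℝ) ^ P.natDegree) ^ (i + 1)

lemma zero_mod' (P : F[X]) : (0 : F[X]) % P = 0 := by simp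

include hE in
lemma ev_zero : ev E (0 : F[X]) = 0 := by
  have := ev_lt E hE (0 : F[X]) 0 (by simp [degree_zero])
  simpa using this

include hE in
lemma V_summable (P g : F[X]) (hP : 1 ≤ P.natDegree) :
    Summable (fun i : ℕ => (ev E (g / P ^ i % P) : ℝ) /
      ((Fintype.card F : ℝ) ^ P.natDegree) ^ (i + 1)) := by
  apply summable_of_ne_finset_zero (s := Finset.range (g.natDegree + 1))
  intro i hi
  rw [Finset.mem_range, not_lt] at hi
  have hP0 : P ≠ 0 := by
    rintro rfl
    simp at hP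
  have h1 : g / P ^ i = 0 := by
    rw [Polynomial.div_eq_zero_iff (pow_ne_zero i hP0)]
    refine lt_of_lt_of_le (degree_lt_succ g) ?_
    rw [degree_eq_natDegree (pow_ne_zero i hP0), natDegree_pow]
    have : g.natDegree + 1 ≤ i * P.natDegree := by nlinarith
    exact_mod_cast this
  rw [h1, zero_mod', ev_zero E hE]
  simp

include hE in
lemma V_rec (P g : F[X]) (hP : 1 ≤ P.natDegree) :
    V E P g = ((ev E (g % P) : ℝ) + V E P (g / P)) / (Fintype.card F : ℝ) ^ P.natDegree := by
  have hP0 : P ≠ 0 := by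
    rintro rfl
    simp at hP
  unfold V
  rw [(V_summable E hE P g hP).tsum_eq_zero_add, add_div, ← tsum_div_const]
  congr 1
  · simp
  · apply tsum_congr
    intro i
    rw [div_pow_succ g P hP0 i, div_div, ← pow_succ]

include hE in
lemma V_zero (P : F[X]) : V E P 0 = 0 := by
  unfold V
  have : ∀ i : ℕ, (ev E ((0 : F[X]) / P ^ i % P) : ℝ) /
      ((Fintype.card F : ℝ) ^ P.natDegree) ^ (i + 1) = 0 := by
    intro i
    rw [EuclideanDomain.zero_div, zero_mod', ev_zero E hE]
    simp
  simp only [this, tsum_zero]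

include hE in
lemma ev_mod_lt (P g : F[X]) (hP : 1 ≤ P.natDegree) :
    ev E (g % P) < Fintype.card F ^ P.natDegree := by
  have hP0 : P ≠ 0 := by
    rintro rfl
    simp at hP
  apply ev_lt E hE
  rw [← degree_eq_natDegree hP0]
  exact EuclideanDomain.mod_lt _ hP0

include hE in
lemma V_mem (P : F[X]) (hP : 1 ≤ P.natDegree) (n : ℕ) :
    ∀ g : F[X], g.natDegree ≤ n → 0 ≤ V E P g ∧ V E P g < 1 := by
  have hP0 : P ≠ 0 := by
    rintro rfl
    simp at hP
  have hq0 : (0:ℝ) < (Fintype.card F : ℝ) ^ P.natDegree := by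
    have : (0:ℝ) < Fintype.card F := by exact_mod_cast Fintype.card_pos
    positivity
  have step : ∀ g : F[X], (0 ≤ V E P (g / P) ∧ V E P (g / P) < 1) →
      0 ≤ V E P g ∧ V E P g < 1 := by
    rintro g ⟨h1, h2⟩
    rw [V_rec E hE P g hP]
    have h3 : (ev E (g % P) : ℝ) + 1 ≤ (Fintype.card F : ℝ) ^ P.natDegree := by
      exact_mod_cast ev_mod_lt E hE P g hP
    constructor
    · positivity
    · rw [div_lt_one hq0]
      linarith
  have hz : 0 ≤ V E P 0 ∧ V E P 0 < 1 := by
    rw [V_zero E hE P]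
    norm_num
  induction n with
  | zero =>
    intro g hg
    apply step
    have h1 : g / P = 0 := by
      rw [Polynomial.div_eq_zero_iff hP0]
      refine lt_of_le_of_lt degree_le_natDegree ?_
      rw [degree_eq_natDegree hP0]
      exact_mod_cast (by omega : g.natDegree < P.natDegree)
    rw [h1]
    exact hz
  | succ n ih =>
    intro g hg
    apply step
    rcases eq_or_ne (g / P) 0 with h0 | h0
    · rw [h0]
      exact hz
    · apply ih
      have hg0 : g ≠ 0 := by
        rintro rfl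
        exact h0 EuclideanDomain.zero_div
      have hPpos : 0 < P.degree := by
        rw [degree_eq_natDegree hP0]
        exact_mod_cast hP
      have h1 := natDegree_lt_natDegree h0 (degree_div_lt hg0 hPpos)
      omega

/-- the number of `n < N` with `n(t) = r + P ^ k g`, `V g < μ` and `ev_q ⟨n(t) Θ⟩ < γ` -/
noncomputable def cnt2 (Θ : LaurentSeries F) (γ μ : ℝ) (P r : F[X]) (k N : ℕ) : ℕ := by
  classical
  exact ((Finset.range N).filter (fun n : ℕ => (∃ g : F[X], toPoly E n = r + P ^ k * g ∧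
    V E P g < μ) ∧ yv E (emb (toPoly E n) * Θ) < γ)).card

/-- the number of `n < N` with `n(t) ≡ r` and `ev_q ⟨n(t) Θ⟩ < γ` -/
noncomputable def cnt1 (Θ : LaurentSeries F) (γ : ℝ) (P r : F[X]) (k N : ℕ) : ℕ := by
  classical
  exact ((Finset.range N).filter (fun n : ℕ => P ^ k ∣ (toPoly E n - r) ∧
    yv E (emb (toPoly E n) * Θ) < γ)).card

lemma cnt1_eq' (Θ : LaurentSeries F) (γ : ℝ) (P r : F[X]) (k m N : ℕ) :
    cnt1 E Θ γ P r k N = cnt E Θ γ P r 0 k m N := by
  classical
  unfold cnt1 cnt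
  congr 1
  apply Finset.filter_congr
  intro n _
  rw [mul_zero, zero_add]

include hE in
lemma cnt2_rec (Θ : LaurentSeries F) (γ μ : ℝ) (P r : F[X]) (hP : 1 ≤ P.natDegree) (k N j : ℕ)
    (hjQ : j < Fintype.card F ^ P.natDegree)
    (hj1 : (j:ℝ) ≤ (Fintype.card F : ℝ) ^ P.natDegree * μ)
    (hj2 : (Fintype.card F : ℝ) ^ P.natDegree * μ < j + 1) :
    cnt2 E Θ γ μ P r k N = ∑ c ∈ Finset.range j, cnt1 E Θ γ P (r + P ^ k * toPoly E c) (k + 1) N +
      cnt2 E Θ γ ((Fintype.card F : ℝ) ^ P.natDegree * μ - j) P (r + P ^ k * toPoly E j) (k + 1) N := by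
  classical
  have hP0 : P ≠ 0 := by
    rintro rfl
    simp at hP
  have hPk0 : P ^ k ≠ 0 := pow_ne_zero k hP0
  have hq0 : (0:ℝ) < (Fintype.card F : ℝ) ^ P.natDegree := by
    have : (0:ℝ) < Fintype.card F := by exact_mod_cast Fintype.card_pos
    positivity
  have hPdeg : P.degree = (P.natDegree : WithBot ℕ) := degree_eq_natDegree hP0
  have hVm : ∀ g : F[X], 0 ≤ V E P g ∧ V E P g < 1 := fun g => V_mem E hE P hP _ g le_rfl
  -- the residue of small polynomials
  have hmod : ∀ c : ℕ, c < Fintype.card F ^ P.natDegree → ∀ h : F[X],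
      (toPoly E c + P * h) % P = toPoly E c ∧ (toPoly E c + P * h) / P = h := by
    intro c hc h
    have h1 : (toPoly E c).degree < P.degree := by
      rw [hPdeg]
      exact toPoly_degree_lt E hE c _ hc
    have h2 : (toPoly E c + P * h) / P = h := by
      rw [add_comm]
      exact div_eq_of P h _ hP0 h1
    refine ⟨?_, h2⟩
    have h3 := EuclideanDomain.div_add_mod (toPoly E c + P * h) P
    rw [h2] at h3
    linear_combination h3
  set R : ℕ → Prop := fun n => (∃ g : F[X], toPoly E n = r + P ^ k * g ∧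
    V E P g < μ) ∧ yv E (emb (toPoly E n) * Θ) < γ with hR
  set res : ℕ → ℕ := fun n => ev E ((toPoly E n - r) / P ^ k % P) with hres
  -- the decomposition of `g`
  have hdec : ∀ n : ℕ, ∀ g : F[X], toPoly E n = r + P ^ k * g →
      res n = ev E (g % P) ∧ toPoly E n = (r + P ^ k * toPoly E (res n)) + P ^ (k + 1) * (g / P) ∧
      V E P g = ((res n : ℝ) + V E P (g / P)) / (Fintype.card F : ℝ) ^ P.natDegree := by
    intro n g hg
    have h1 : (toPoly E n - r) / P ^ k = g := by
      have : toPoly E n - r = P ^ k * g + 0 := by linear_combination hg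
      rw [this]
      apply div_eq_of _ _ _ hPk0
      rw [degree_zero, degree_eq_natDegree hPk0]
      exact WithBot.bot_lt_coe _
    have h2 : res n = ev E (g % P) := by rw [hres]; simp only [h1]
    refine ⟨h2, ?_, ?_⟩
    · rw [h2, toPoly_ev E hE, hg]
      have h3 := EuclideanDomain.div_add_mod g P
      rw [pow_succ]
      linear_combination (-(P ^ k)) * h3
    · rw [h2]
      exact V_rec E hE P g hP
  have hresQ : ∀ n, res n < Fintype.card F ^ P.natDegree := fun n => ev_mod_lt E hE P _ hP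
  have hsum : cnt2 E Θ γ μ P r k N = ∑ c ∈ Finset.range (j + 1),
      (((Finset.range N).filter R).filter (fun n => res n = c)).card := by
    have h1 : cnt2 E Θ γ μ P r k N = ((Finset.range N).filter R).card := rfl
    rw [h1]
    apply Finset.card_eq_sum_card_fiberwise
    intro n hn
    rw [Finset.mem_coe, Finset.mem_filter] at hn
    obtain ⟨-, ⟨g, hg, hV⟩, -⟩ := hn
    obtain ⟨-, -, h4⟩ := hdec n g hg
    rw [h4, div_lt_iff₀ hq0] at hV
    rw [Finset.mem_coe, Finset.mem_range]
    have h5 := (hVm (g / P)).1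
    have h6 : (res n : ℝ) < j + 1 := by nlinarith
    exact_mod_cast h6
  rw [hsum, Finset.sum_range_succ]
  congr 1
  · apply Finset.sum_congr rfl
    intro c hc
    rw [Finset.mem_range] at hc
    have hcQ : c < Fintype.card F ^ P.natDegree := by omega
    unfold cnt1
    congr 1
    ext n
    rw [Finset.mem_filter, Finset.mem_filter, Finset.mem_filter]
    constructor
    · rintro ⟨⟨hn, ⟨g, hg, -⟩, hy⟩, hc'⟩
      refine ⟨hn, ?_, hy⟩
      obtain ⟨-, h3, -⟩ := hdec n g hg
      rw [hc'] at h3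
      exact ⟨g / P, by linear_combination h3⟩
    · rintro ⟨hn, ⟨h, hh⟩, hy⟩
      have hg : toPoly E n = r + P ^ k * (toPoly E c + P * h) := by
        rw [pow_succ] at hh
        linear_combination hh
      obtain ⟨h1, -, h4⟩ := hdec n _ hg
      rw [(hmod c hcQ h).1, ev_toPoly E hE] at h1
      refine ⟨⟨hn, ⟨_, hg, ?_⟩, hy⟩, h1⟩
      rw [h4, h1, div_lt_iff₀ hq0, mul_comm μ]
      have h5 := (hVm ((toPoly E c + P * h) / P)).2
      have h6 : (c:ℝ) + 1 ≤ j := by exact_mod_cast hc
      linarith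
  · unfold cnt2
    congr 1
    ext n
    rw [Finset.mem_filter, Finset.mem_filter, Finset.mem_filter]
    constructor
    · rintro ⟨⟨hn, ⟨g, hg, hV⟩, hy⟩, hc'⟩
      obtain ⟨-, h3, h4⟩ := hdec n g hg
      rw [hc'] at h3 h4
      refine ⟨hn, ⟨g / P, h3, ?_⟩, hy⟩
      rw [h4, div_lt_iff₀ hq0, mul_comm μ] at hV
      linarith
    · rintro ⟨hn, ⟨h, hh, hV⟩, hy⟩
      have hg : toPoly E n = r + P ^ k * (toPoly E j + P * h) := by
        rw [pow_succ] at hh
        linear_combination hh
      obtain ⟨h1, -, h4⟩ := hdec n _ hg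
      rw [(hmod j hjQ h).1, ev_toPoly E hE] at h1
      refine ⟨⟨hn, ⟨_, hg, ?_⟩, hy⟩, h1⟩
      rw [h4, h1, (hmod j hjQ h).2, div_lt_iff₀ hq0, mul_comm μ]
      linarith

include hE in
/-- **The count in two dimensions.** -/
lemma cnt2_bound (Θ : LaurentSeries F) (γ : ℝ) (hγ0 : 0 ≤ γ) (hγ1 : γ ≤ 1) (P : F[X])
    (hP : 1 ≤ P.natDegree) (s : ℕ) (hB : BadS Θ P s) (m N : ℕ) (hN : N ≤ Fintype.card F ^ m)
    (d : ℕ) : ∀ (k : ℕ) (r : F[X]) (μ : ℝ), k + d = m → 0 ≤ μ → μ < 1 →
    |(cnt2 E Θ γ μ P r k N : ℝ) - γ * μ * N / ((Fintype.card F : ℝ) ^ P.natDegree) ^ k| ≤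
      d * ((Fintype.card F : ℝ) ^ P.natDegree * ((Fintype.card F * m + 1) *
        (Fintype.card F : ℝ) ^ s)) + 1 := by
  classical
  have hP0 : P ≠ 0 := by
    rintro rfl
    simp at hP
  have hq : 0 < Fintype.card F := Fintype.card_pos
  have hq1 : (1:ℝ) ≤ Fintype.card F := by exact_mod_cast Fintype.card_pos
  have hq0 : (0:ℝ) < Fintype.card F := by linarith
  set Q : ℝ := (Fintype.card F : ℝ) ^ P.natDegree with hQ
  have hQ0 : 0 < Q := by positivity
  have hQ1 : 1 ≤ Q := one_le_pow₀ hq1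
  set Er : ℝ := (Fintype.card F * m + 1) * (Fintype.card F : ℝ) ^ s with hEr
  have hEr0 : 0 ≤ Er := by positivity
  induction d with
  | zero =>
    intro k r μ hk hμ0 hμ1
    have hkm : k = m := by omega
    subst hkm
    have h1 : cnt2 E Θ γ μ P r k N ≤ 1 := by
      unfold cnt2
      rw [Finset.card_le_one]
      intro a ha b hb
      rw [Finset.mem_filter, Finset.mem_range] at ha hb
      obtain ⟨haN, ⟨g, hg, -⟩, -⟩ := ha
      obtain ⟨hbN, ⟨g', hg', -⟩, -⟩ := hb
      apply toPoly_injective E hE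
      have h2 : P ^ k ∣ toPoly E a - toPoly E b := ⟨g - g', by rw [hg, hg']; ring⟩
      have h3 : (toPoly E a - toPoly E b).degree < (P ^ k).degree := by
        rw [degree_eq_natDegree (pow_ne_zero k hP0), natDegree_pow]
        have h5 : ((k : ℕ) : WithBot ℕ) ≤ ((k * P.natDegree : ℕ) : WithBot ℕ) := by
          exact_mod_cast Nat.le_mul_of_pos_right k hP
        refine lt_of_le_of_lt (degree_sub_le _ _) (max_lt ?_ ?_)
        · exact lt_of_lt_of_le (toPoly_degree_lt E hE a k (by omega)) h5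
        · exact lt_of_lt_of_le (toPoly_degree_lt E hE b k (by omega)) h5
      exact sub_eq_zero.1 (eq_zero_of_dvd_of_degree_lt h2 h3)
    have h2 : (cnt2 E Θ γ μ P r k N : ℝ) ≤ 1 := by exact_mod_cast h1
    have h3 : (0:ℝ) ≤ cnt2 E Θ γ μ P r k N := by positivity
    have h4 : γ * μ * N / Q ^ k ≤ 1 := by
      rw [div_le_one (by positivity)]
      have h5 : (N:ℝ) ≤ Q ^ k := by
        calc (N:ℝ) ≤ (Fintype.card F : ℝ) ^ k := by exact_mod_cast hN
          _ ≤ Q ^ k := by
            apply pow_le_pow_left₀ hq0.le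
            rw [hQ]
            exact le_self_pow₀ hq1 (by omega)
      calc γ * μ * N ≤ 1 * 1 * N := by gcongr
        _ ≤ Q ^ k := by linarith
    have h5 : 0 ≤ γ * μ * N / Q ^ k := by positivity
    rw [abs_le]
    constructor
    · simp only [Nat.cast_zero, zero_mul, zero_add]; linarith
    · simp only [Nat.cast_zero, zero_mul, zero_add]; linarith
  | succ d ih =>
    intro k r μ hk hμ0 hμ1
    set j := ⌊Q * μ⌋₊ with hj
    have hj1 : (j:ℝ) ≤ Q * μ := Nat.floor_le (by positivity)
    have hj2 : Q * μ < j + 1 := Nat.lt_floor_add_one _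
    have hjQ' : (j:ℝ) < Q := by nlinarith
    have hjQ : j < Fintype.card F ^ P.natDegree := by
      have h1 : (j:ℝ) < ((Fintype.card F ^ P.natDegree : ℕ) : ℝ) := by
        push_cast
        exact hjQ'
      exact_mod_cast h1
    rw [cnt2_rec E hE Θ γ μ P r hP k N j hjQ hj1 hj2]
    have hT := ih (k + 1) (r + P ^ k * toPoly E j) (Q * μ - j) (by omega) (by linarith)
      (by linarith)
    have hS : |∑ c ∈ Finset.range j, (cnt1 E Θ γ P (r + P ^ k * toPoly E c) (k + 1) N : ℝ) -
        j * (γ * N / Q ^ (k + 1))| ≤ j * Er := by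
      have e : (j:ℝ) * (γ * N / Q ^ (k + 1)) = ∑ _c ∈ Finset.range j, γ * N / Q ^ (k + 1) := by
        rw [Finset.sum_const, Finset.card_range, nsmul_eq_mul]
      have e2 : (j:ℝ) * Er = ∑ _c ∈ Finset.range j, Er := by
        rw [Finset.sum_const, Finset.card_range, nsmul_eq_mul]
      rw [e, e2, ← Finset.sum_sub_distrib]
      refine (Finset.abs_sum_le_sum_abs _ _).trans ?_
      apply Finset.sum_le_sum
      intro c _
      rw [cnt1_eq' E Θ γ P _ (k + 1) m N]
      exact cnt_le E hE Θ γ hγ0 hγ1 P hP s hB _ (k + 1) m 0 N hN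
    have e3 : ((∑ c ∈ Finset.range j, cnt1 E Θ γ P (r + P ^ k * toPoly E c) (k + 1) N +
        cnt2 E Θ γ (Q * μ - j) P (r + P ^ k * toPoly E j) (k + 1) N : ℕ) : ℝ) -
        γ * μ * N / Q ^ k =
        (∑ c ∈ Finset.range j, (cnt1 E Θ γ P (r + P ^ k * toPoly E c) (k + 1) N : ℝ) -
        j * (γ * N / Q ^ (k + 1))) +
        ((cnt2 E Θ γ (Q * μ - j) P (r + P ^ k * toPoly E j) (k + 1) N : ℝ) -
        γ * (Q * μ - j) * N / Q ^ (k + 1)) := by
      push_cast
      rw [pow_succ]
      field_simp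
      ring
    rw [e3]
    refine (abs_add_le _ _).trans ?_
    have h6 : j * Er ≤ Q * Er := by gcongr
    push_cast
    linarith

end Q271.FF
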